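import Mathlib
import Pool.Agent.H979.GW.StmA

set_option autoImplicit false
set_option linter.unusedSectionVars false
set_option linter.unusedVariables false

open MeasureTheory ProbabilityTheory Filter Topology Set
open scoped ENNReal NNReal

/-! # Project GW (MP_276d40_pr): the martingale limit `W` (leaf `S_W`) -/

namespace Pool.Agent.H196

open Pool.Agent.H979.GW

variable {Q : Type} [Fintype Q] [DecidableEq Q]

theorem gww_iter_lin (f g : Q → Env Q → ℝ) (α β : ℝ) (k : ℕ) :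
    TT^[k] (fun b ω => α * f b ω + β * g b ω) =
      fun a ω => α * TT^[k] f a ω + β * TT^[k] g a ω := by
  induction k with
  | zero => rfl
  | succ k ih =>
    rw [Function.iterate_succ_apply', Function.iterate_succ_apply', Function.iterate_succ_apply',
      ih]
    funext a ω
    simp only [TT, Finset.sum_add_distrib, Finset.mul_sum]

theorem gww_meas_TT {f : Q → Env Q → ℝ} (hf : ∀ b, Measurable (f b))
    (hsh : ∀ v : Vx Q, Measurable (sh (Q := Q) v)) (a : Q) : Measurable (TT f a) := by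
  have h1 : TT f a = (fun p : (Q → ℕ) × Env Q => ∑ c ∈ chd p.1, f c.1 (sh [c] p.2)) ∘
      (fun ω => (ω [], ω)) := rfl
  rw [h1]
  have h2 : Measurable (fun ω : Env Q => ω []) := measurable_pi_apply ([] : Vx Q)
  refine Measurable.comp ?_ (h2.prodMk measurable_id)
  refine measurable_from_prod_countable_right (fun x => ?_)
  show Measurable fun y : Env Q => ∑ c ∈ chd x, f c.1 (sh [c] y)
  exact Finset.measurable_fun_sum (chd x) fun c _ => (hf c.1).comp (hsh [c])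

theorem gww_Wk_succ (ρ : ℝ) (e : Q → ℝ) (k : ℕ) (a : Q) (ω : Env Q) :
    Wk ρ e (k + 1) a ω = ρ⁻¹ * ∑ c ∈ chd (ω []), Wk ρ e k c.1 (sh [c] ω) := by
  unfold Wk
  rw [Function.iterate_succ_apply']
  simp only [TT, Finset.mul_sum]
  refine Finset.sum_congr rfl fun c _ => ?_
  ring

theorem gww_Wk_zero (ρ : ℝ) (e : Q → ℝ) (a : Q) (ω : Env Q) : Wk ρ e 0 a ω = e a := by
  simp [Wk]

theorem gww_Wk_nonneg {ρ : ℝ} (hρ : 0 < ρ) {e : Q → ℝ} (he : ∀ a, 0 < e a) (k : ℕ) :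
    ∀ (a : Q) (ω : Env Q), 0 ≤ Wk ρ e k a ω := by
  induction k with
  | zero => intro a ω; rw [gww_Wk_zero]; exact (he a).le
  | succ k ih =>
    intro a ω
    rw [gww_Wk_succ]
    exact mul_nonneg (inv_nonneg.2 hρ.le) (Finset.sum_nonneg fun c _ => ih _ _)

theorem gww_iter_meas {f : Q → Env Q → ℝ} (hf : ∀ b, Measurable (f b))
    (hsh : ∀ v : Vx Q, Measurable (sh (Q := Q) v)) (k : ℕ) :
    ∀ a, Measurable (TT^[k] f a) := by
  induction k with
  | zero => exact hf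
  | succ k ih =>
    intro a
    rw [Function.iterate_succ_apply']
    exact gww_meas_TT ih hsh a

theorem gww_Wk_meas (ρ : ℝ) (e : Q → ℝ) (hsh : ∀ v : Vx Q, Measurable (sh (Q := Q) v)) (k : ℕ)
    (a : Q) : Measurable (Wk ρ e k a) :=
  (gww_iter_meas (fun b => measurable_const) hsh k a).const_mul _

/-- the `L²` norm is at most the root of the second moment -/
theorem gww_norm_le {Ω : Type*} [MeasurableSpace Ω] {μ : Measure Ω} {g : Ω → ℝ}
    (hg : MemLp g 2 μ) {B : ℝ} (hB : ∫ ω, g ω ^ 2 ∂μ ≤ B) :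
    eLpNorm g 2 μ ≤ ENNReal.ofReal (Real.sqrt B) := by
  rw [hg.eLpNorm_eq_integral_rpow_norm (by norm_num) (by norm_num)]
  refine ENNReal.ofReal_le_ofReal ?_
  have h1 : ∀ ω, ‖g ω‖ ^ (2 : ℝ≥0∞).toReal = g ω ^ 2 := fun ω => by
    simp
  simp_rw [h1]
  have h2 : ((2 : ℝ≥0∞).toReal)⁻¹ = (1 / 2 : ℝ) := by simp
  rw [h2, ← Real.sqrt_eq_rpow]
  exact Real.sqrt_le_sqrt hB

theorem gww_sq_le {Ω : Type*} [MeasurableSpace Ω] {μ : Measure Ω} {g : Ω → ℝ}
    (hg : MemLp g 2 μ) {B : ℝ} (hB0 : 0 ≤ B) (hB : eLpNorm g 2 μ ≤ ENNReal.ofReal B) :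
    ∫ ω, g ω ^ 2 ∂μ ≤ B ^ 2 := by
  rw [hg.eLpNorm_eq_integral_rpow_norm (by norm_num) (by norm_num)] at hB
  have h1 : ∀ ω, ‖g ω‖ ^ (2 : ℝ≥0∞).toReal = g ω ^ 2 := fun ω => by
    simp
  simp_rw [h1] at hB
  have h2 : ((2 : ℝ≥0∞).toReal)⁻¹ = (1 / 2 : ℝ) := by simp
  rw [h2, ← Real.sqrt_eq_rpow, ENNReal.ofReal_le_ofReal_iff hB0] at hB
  exact (Real.sqrt_le_left hB0).1 hB

/-- the function whose iterates are the increments of the martingale -/
noncomputable def gwwPhi (ρ : ℝ) (e : Q → ℝ) : Q → Env Q → ℝ :=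
  fun b ω => ρ⁻¹ * TT (fun b _ => e b) b ω + (-1) * e b

theorem gww_Wk_diff {ρ : ℝ} (e : Q → ℝ) (k : ℕ) (a : Q) (ω : Env Q) :
    Wk ρ e (k + 1) a ω - Wk ρ e k a ω = (ρ⁻¹) ^ k * TT^[k] (gwwPhi ρ e) a ω := by
  have h1 := gww_iter_lin (TT (fun b (_ : Env Q) => e b)) (fun b _ => e b) ρ⁻¹ (-1) k
  have h2 : TT^[k] (gwwPhi ρ e) a ω = ρ⁻¹ * TT^[k] (TT (fun b (_ : Env Q) => e b)) a ω +
      (-1) * TT^[k] (fun b (_ : Env Q) => e b) a ω := congrFun (congrFun h1 a) ω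
  rw [h2, ← Function.iterate_succ_apply]
  simp only [Wk]
  ring

section main

variable (q : Q → Measure (Q → ℕ)) [∀ a, IsProbabilityMeasure (q a)] {ρ : ℝ} {e m : Q → ℝ}
  {C r : ℝ}

theorem gww_Wk_memLp (h2 : S_M2 q) (k : ℕ) : ∀ a, MemLp (Wk ρ e k a) 2 (law q a) := by
  have h : ∀ k a, MemLp (TT^[k] (fun b (_ : Env Q) => e b) a) 2 (law q a) := by
    intro k
    induction k with
    | zero => intro a; exact memLp_const _
    | succ k ih =>
      intro a
      rw [Function.iterate_succ_apply']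
      exact (h2 _ ih a).1
  intro a
  exact (h k a).const_mul _

theorem gww_Wk_mean (hy : Hyp q ρ e m C r) (h1 : S_M1 q) (h2 : S_M2 q) (k : ℕ) :
    ∀ a, ∫ ω, Wk ρ e k a ω ∂(law q a) = e a := by
  have hρ : 0 < ρ := lt_trans one_pos hy.rho
  induction k with
  | zero => intro a; simp [Wk]
  | succ k ih =>
    intro a
    have h3 := (h1.2 (Wk ρ e k) (fun b => (gww_Wk_memLp q h2 k b).integrable one_le_two) a).2
    have h4 : ∀ ω, Wk ρ e (k + 1) a ω = ρ⁻¹ * TT (Wk ρ e k) a ω := fun ω => gww_Wk_succ ρ e k a ω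
    simp_rw [h4]
    rw [integral_const_mul, h3]
    simp_rw [ih]
    rw [hy.pf.right a]
    field_simp

theorem gww_phi_memLp (h2 : S_M2 q) (b : Q) : MemLp (gwwPhi ρ e b) 2 (law q b) := by
  have h3 := (h2 (fun b (_ : Env Q) => e b) (fun b => memLp_const _) b).1
  have h4 : gwwPhi ρ e b = fun ω => ρ⁻¹ * TT (fun b _ => e b) b ω + (-1) * e b := rfl
  rw [h4]
  exact (h3.const_mul _).add (memLp_const _)

theorem gww_phi_mean (hy : Hyp q ρ e m C r) (h1 : S_M1 q) (h2 : S_M2 q) (b : Q) :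
    ∫ ω, gwwPhi ρ e b ω ∂(law q b) = 0 := by
  have h5 := gww_Wk_diff (ρ := ρ) e 0 b
  have h6 : ∀ ω, gwwPhi ρ e b ω = Wk ρ e 1 b ω - Wk ρ e 0 b ω := fun ω => by
    have := h5 ω
    simp only [zero_add, pow_zero, one_mul, Function.iterate_zero, id_eq] at this
    exact this.symm
  simp_rw [h6]
  rw [integral_sub ((gww_Wk_memLp q h2 1 b).integrable one_le_two)
    ((gww_Wk_memLp q h2 0 b).integrable one_le_two), gww_Wk_mean q hy h1 h2,
    gww_Wk_mean q hy h1 h2, sub_self]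

/-- the increments decay geometrically in `L²` -/
theorem gww_incr (hy : Hyp q ρ e m C r) (h1 : S_M1 q) (h2 : S_M2 q) (hk : S_KEY q ρ m) :
    ∃ B t : ℝ, 0 ≤ B ∧ 0 ≤ t ∧ t < 1 ∧ ∀ (k : ℕ) (a : Q),
      eLpNorm (fun ω => Wk ρ e (k + 1) a ω - Wk ρ e k a ω) 2 (law q a) ≤
        ENNReal.ofReal (B * t ^ k) := by
  obtain ⟨K, s, hK, hs0, hs1, H⟩ := hk (gwwPhi ρ e) (gww_phi_memLp q h2) (by
    refine Finset.sum_eq_zero fun b _ => ?_
    rw [gww_phi_mean q hy h1 h2, mul_zero])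
  refine ⟨Real.sqrt K, Real.sqrt s, Real.sqrt_nonneg _, Real.sqrt_nonneg _, ?_, fun k a => ?_⟩
  · rw [Real.sqrt_lt' one_pos]; simpa using hs1
  have h3 := (H k a).2
  have h4 : MemLp (fun ω => (ρ⁻¹) ^ k * TT^[k] (gwwPhi ρ e) a ω) 2 (law q a) :=
    ((H k a).1).const_mul _
  have h5 := gww_norm_le h4 h3
  simp_rw [gww_Wk_diff]
  refine h5.trans (le_of_eq ?_)
  rw [Real.sqrt_mul hK, Real.sqrt_eq_rpow s, Real.sqrt_eq_rpow (s ^ k), ← Real.rpow_natCast,
    ← Real.rpow_mul hs0, ← Real.rpow_natCast, ← Real.rpow_mul hs0, mul_comm (k : ℝ)]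

/-- almost everywhere convergence -/
theorem gww_ae (hy : Hyp q ρ e m C r) (hsh : ∀ v : Vx Q, Measurable (sh (Q := Q) v))
    {B t : ℝ} (hB : 0 ≤ B) (ht0 : 0 ≤ t) (ht1 : t < 1)
    (H : ∀ (k : ℕ) (a : Q), eLpNorm (fun ω => Wk ρ e (k + 1) a ω - Wk ρ e k a ω) 2 (law q a) ≤
        ENNReal.ofReal (B * t ^ k)) (a : Q) :
    ∀ᵐ ω ∂(law q a), Tendsto (fun k => Wk ρ e k a ω) atTop (𝓝 (WW ρ e a ω)) := by
  have hρ : 0 < ρ := lt_trans one_pos hy.rho
  have hm : ∀ k, Measurable (Wk ρ e k a) := fun k => gww_Wk_meas ρ e hsh k a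
  have hmd : ∀ k, Measurable fun ω => ‖Wk ρ e (k + 1) a ω - Wk ρ e k a ω‖ₑ := fun k =>
    ((hm (k + 1)).sub (hm k)).enorm
  have h1 : ∫⁻ ω, ∑' k, ‖Wk ρ e (k + 1) a ω - Wk ρ e k a ω‖ₑ ∂(law q a) < ∞ := by
    rw [lintegral_tsum (fun k => (hmd k).aemeasurable)]
    have h2 : ∀ k, ∫⁻ ω, ‖Wk ρ e (k + 1) a ω - Wk ρ e k a ω‖ₑ ∂(law q a) ≤
        ENNReal.ofReal (B * t ^ k) := by
      intro k
      refine le_trans ?_ (H k a)
      rw [← eLpNorm_one_eq_lintegral_enorm]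
      exact eLpNorm_le_eLpNorm_of_exponent_le one_le_two
        ((hm (k + 1)).sub (hm k)).aestronglyMeasurable
    refine lt_of_le_of_lt (ENNReal.tsum_le_tsum h2) ?_
    have h3 : Summable fun k : ℕ => B * t ^ k := (summable_geometric_of_lt_one ht0 ht1).mul_left B
    exact lt_top_iff_ne_top.2 h3.tsum_ofReal_ne_top
  filter_upwards [ae_lt_top' (AEMeasurable.tsum fun k => (hmd k).aemeasurable) h1.ne] with ω hω
  have h4 : Summable fun k => ‖Wk ρ e (k + 1) a ω - Wk ρ e k a ω‖ := by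
    have h5 := ENNReal.summable_toReal hω.ne
    simpa using h5
  have h5 : Summable fun k => Wk ρ e (k + 1) a ω - Wk ρ e k a ω := h4.of_norm
  obtain ⟨l, hl⟩ : ∃ l, Tendsto (fun k => Wk ρ e k a ω) atTop (𝓝 l) := by
    refine ⟨(∑' k, (Wk ρ e (k + 1) a ω - Wk ρ e k a ω)) + Wk ρ e 0 a ω, ?_⟩
    have h6 := (h5.hasSum.tendsto_sum_nat).add_const (Wk ρ e 0 a ω)
    refine h6.congr fun n => ?_
    rw [Finset.sum_range_sub (fun k => Wk ρ e k a ω) n]
    ring
  have hl0 : 0 ≤ l := ge_of_tendsto' hl fun k => gww_Wk_nonneg hρ hy.pf.e_pos k a ω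
  have h7 : Tendsto (fun k => ENNReal.ofReal (Wk ρ e k a ω)) atTop (𝓝 (ENNReal.ofReal l)) :=
    (ENNReal.continuous_ofReal.tendsto l).comp hl
  have h8 : WW ρ e a ω = l := by
    unfold WW
    rw [h7.limsup_eq, ENNReal.toReal_ofReal hl0]
  rw [h8]
  exact hl

/-- the `L²` rate -/
theorem gww_rate (h2 : S_M2 q) {B t : ℝ} (hB : 0 ≤ B) (ht0 : 0 ≤ t) (ht1 : t < 1)
    (H : ∀ (k : ℕ) (a : Q), eLpNorm (fun ω => Wk ρ e (k + 1) a ω - Wk ρ e k a ω) 2 (law q a) ≤
        ENNReal.ofReal (B * t ^ k))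
    (hae : ∀ a, ∀ᵐ ω ∂(law q a), Tendsto (fun k => Wk ρ e k a ω) atTop (𝓝 (WW ρ e a ω)))
    (k : ℕ) (a : Q) :
    eLpNorm (fun ω => WW ρ e a ω - Wk ρ e k a ω) 2 (law q a) ≤
      ENNReal.ofReal (B / (1 - t) * t ^ k) := by
  have h1 : ∀ n, eLpNorm (fun ω => Wk ρ e (k + n) a ω - Wk ρ e k a ω) 2 (law q a) ≤
      ENNReal.ofReal (B * t ^ k * ∑ j ∈ Finset.range n, t ^ j) := by
    intro n
    induction n with
    | zero => simp
    | succ n ih =>
      have h3 : (fun ω => Wk ρ e (k + (n + 1)) a ω - Wk ρ e k a ω) =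
          (fun ω => Wk ρ e (k + n) a ω - Wk ρ e k a ω) +
          (fun ω => Wk ρ e (k + n + 1) a ω - Wk ρ e (k + n) a ω) := by
        funext ω
        simp only [Pi.add_apply, ← add_assoc]
        ring
      rw [h3]
      refine (eLpNorm_add_le (((gww_Wk_memLp q h2 (k + n) a).sub
        (gww_Wk_memLp q h2 k a)).aestronglyMeasurable) (((gww_Wk_memLp q h2 (k + n + 1) a).sub
        (gww_Wk_memLp q h2 (k + n) a)).aestronglyMeasurable) one_le_two).trans ?_
      refine (add_le_add ih (H (k + n) a)).trans ?_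
      rw [← ENNReal.ofReal_add (by positivity) (by positivity), Finset.sum_range_succ, mul_add,
        pow_add]
      exact le_of_eq (by ring_nf)
  have h4 : ∀ n, eLpNorm (fun ω => Wk ρ e (k + n) a ω - Wk ρ e k a ω) 2 (law q a) ≤
      ENNReal.ofReal (B / (1 - t) * t ^ k) := by
    intro n
    refine (h1 n).trans (ENNReal.ofReal_le_ofReal ?_)
    have h5 : ∑ j ∈ Finset.range n, t ^ j ≤ (1 - t)⁻¹ := by
      rw [← tsum_geometric_of_lt_one ht0 ht1]
      exact (summable_geometric_of_lt_one ht0 ht1).sum_le_tsum _ fun j _ => by positivity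
    calc B * t ^ k * ∑ j ∈ Finset.range n, t ^ j ≤ B * t ^ k * (1 - t)⁻¹ :=
          mul_le_mul_of_nonneg_left h5 (by positivity)
      _ = B / (1 - t) * t ^ k := by rw [div_eq_mul_inv]; ring
  have h6 := Lp.eLpNorm_lim_le_liminf_eLpNorm (μ := law q a) (p := 2)
    (f := fun n ω => Wk ρ e (k + n) a ω - Wk ρ e k a ω)
    (fun n => ((gww_Wk_memLp q h2 (k + n) a).sub (gww_Wk_memLp q h2 k a)).aestronglyMeasurable)
    (fun ω => WW ρ e a ω - Wk ρ e k a ω) (by
      filter_upwards [hae a] with ω hω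
      refine Tendsto.sub_const ?_ _
      have h7 := hω.comp (tendsto_add_atTop_nat k)
      refine h7.congr fun n => ?_
      simp [add_comm])
  refine h6.trans ?_
  refine (liminf_le_liminf (Eventually.of_forall h4)).trans ?_
  simp

/-- **W** of the project GW -/
theorem gw_w (hy : Hyp q ρ e m C r) (hs : S_SH q) (h1 : S_M1 q) (h2 : S_M2 q)
    (hk : S_KEY q ρ m) : S_W q ρ e m := by
  have hρ : 0 < ρ := lt_trans one_pos hy.rho
  obtain ⟨B, t, hB, ht0, ht1, H⟩ := gww_incr q hy h1 h2 hk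
  have hsh : ∀ (_ : Q) (v : Vx Q), Measurable (sh (Q := Q) v) := fun a v => (hs a v).1
  have hae : ∀ a, ∀ᵐ ω ∂(law q a), Tendsto (fun k => Wk ρ e k a ω) atTop (𝓝 (WW ρ e a ω)) :=
    fun a => gww_ae q hy (hsh a) hB ht0 ht1 H a
  have hrate := gww_rate q (e := e) (ρ := ρ) h2 hB ht0 ht1 H hae
  have hmW : ∀ a, Measurable (WW ρ e a) := fun a => by
    unfold WW
    exact (Measurable.limsup fun k => (gww_Wk_meas ρ e (hsh a) k a).ennreal_ofReal).ennreal_toReal
  have hBt : 0 ≤ B / (1 - t) := div_nonneg hB (by linarith)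
  have hdiff : ∀ k a, MemLp (fun ω => WW ρ e a ω - Wk ρ e k a ω) 2 (law q a) := fun k a =>
    ⟨((hmW a).sub (gww_Wk_meas ρ e (hsh a) k a)).aestronglyMeasurable,
      (hrate k a).trans_lt ENNReal.ofReal_lt_top⟩
  have hL2 : ∀ a, MemLp (WW ρ e a) 2 (law q a) := fun a => by
    have h3 := (hdiff 0 a).add (gww_Wk_memLp q (ρ := ρ) (e := e) h2 0 a)
    refine h3.congr_norm (hmW a).aestronglyMeasurable (Eventually.of_forall fun ω => ?_)
    simp
  have hrate2 : ∀ k a, ∫ ω, (WW ρ e a ω - Wk ρ e k a ω) ^ 2 ∂(law q a) ≤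
      (B / (1 - t)) ^ 2 * (t ^ 2) ^ k := fun k a => by
    have h3 := gww_sq_le (hdiff k a) (by positivity) (hrate k a)
    refine h3.trans (le_of_eq ?_)
    rw [mul_pow, ← pow_mul, ← pow_mul, mul_comm k 2]
  refine ⟨hmW, fun a ω => ENNReal.toReal_nonneg, hL2, fun a => ?_, hae, fun a => ?_, ?_⟩
  · -- the mean
    have h3 : Tendsto (fun k => ∫ ω, Wk ρ e k a ω ∂(law q a)) atTop
        (𝓝 (∫ ω, WW ρ e a ω ∂(law q a))) := by
      refine tendsto_integral_of_L1' _ (hmW a).aestronglyMeasurable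
        (Eventually.of_forall fun k => (gww_Wk_memLp q h2 k a).integrable one_le_two) ?_
      have h4 : Tendsto (fun k : ℕ => ENNReal.ofReal (B / (1 - t) * t ^ k)) atTop (𝓝 0) := by
        have h5 : Tendsto (fun k : ℕ => B / (1 - t) * t ^ k) atTop (𝓝 (B / (1 - t) * 0)) :=
          (tendsto_pow_atTop_nhds_zero_of_lt_one ht0 ht1).const_mul _
        rw [mul_zero] at h5
        have h6 := (ENNReal.continuous_ofReal.tendsto 0).comp h5
        rw [ENNReal.ofReal_zero] at h6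
        exact h6
      refine tendsto_of_tendsto_of_tendsto_of_le_of_le tendsto_const_nhds h4 (fun _ => zero_le)
        fun k => ?_
      refine le_trans ?_ (hrate k a)
      have h6 : (Wk ρ e k a - WW ρ e a) = -(fun ω => WW ρ e a ω - Wk ρ e k a ω) := by
        funext ω; simp
      show eLpNorm (Wk ρ e k a - WW ρ e a) 1 (law q a) ≤ _
      rw [h6, eLpNorm_neg]
      exact eLpNorm_le_eLpNorm_of_exponent_le one_le_two (hdiff k a).aestronglyMeasurable
    have h7 : (fun k => ∫ ω, Wk ρ e k a ω ∂(law q a)) = fun _ => e a :=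
      funext fun k => gww_Wk_mean q hy h1 h2 k a
    rw [h7] at h3
    exact (tendsto_nhds_unique h3 tendsto_const_nhds)
  · -- the recursion
    have h3 : ∀ᵐ ω ∂(law q a), ∀ c : Q × ℕ,
        Tendsto (fun k => Wk ρ e k c.1 (sh [c] ω)) atTop (𝓝 (WW ρ e c.1 (sh [c] ω))) := by
      rw [ae_all_iff]
      intro c
      have h4 := hae c.1
      have h5 : (law q a).map (sh [c]) = law q c.1 := (hs a [c]).2
      rw [← h5] at h4
      exact ae_of_ae_map ((hs a [c]).1).aemeasurable h4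
    filter_upwards [h3, hae a] with ω hω hω2
    have h6 := (hω2.comp (tendsto_add_atTop_nat 1)).const_mul ρ
    have h7 : Tendsto (fun k => ∑ c ∈ chd (ω []), Wk ρ e k c.1 (sh [c] ω)) atTop
        (𝓝 (∑ c ∈ chd (ω []), WW ρ e c.1 (sh [c] ω))) :=
      tendsto_finsetSum _ fun c _ => hω c
    refine tendsto_nhds_unique h6 (h7.congr fun k => ?_)
    simp only [Function.comp_apply]
    rw [gww_Wk_succ]
    field_simp
  · -- the `L²` law of large numbers
    intro f hf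
    set μf : ℝ := ∑ b, m b * ∫ ω, f b ω ∂(law q b) with hμf
    obtain ⟨K, s, hK, hs0, hs1, HK⟩ := hk (fun b ω => 1 * f b ω + (-μf) * e b)
      (fun b => ((hf b).const_mul 1).add (memLp_const _)) (by
        have h3 : ∀ b, ∫ ω, (1 * f b ω + (-μf) * e b) ∂(law q b) =
            ∫ ω, f b ω ∂(law q b) - μf * e b := fun b => by
          rw [integral_add (((hf b).const_mul 1).integrable one_le_two) (integrable_const _)]
          simp
          ring
        simp_rw [h3, mul_sub]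
        rw [Finset.sum_sub_distrib, ← hμf]
        have h4 : ∑ b, m b * (μf * e b) = μf * ∑ b, m b * e b := by
          rw [Finset.mul_sum]
          exact Finset.sum_congr rfl fun b _ => by ring
        rw [h4, hy.pf.m_e, mul_one, sub_self])
    have h5 : ∀ (i : ℕ) (a : Q) (ω : Env Q), (ρ⁻¹) ^ i * TT^[i] f a ω - μf * WW ρ e a ω =
        (ρ⁻¹) ^ i * TT^[i] (fun b ω => 1 * f b ω + (-μf) * e b) a ω +
          (-μf) * (WW ρ e a ω - Wk ρ e i a ω) := by
      intro i a ω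
      have h6 := congrFun (congrFun (gww_iter_lin f (fun b _ => e b) 1 (-μf) i) a) ω
      rw [h6]
      simp only [Wk]
      ring
    refine ⟨2 * K + 2 * μf ^ 2 * (B / (1 - t)) ^ 2, max s (t ^ 2), by positivity,
      le_max_of_le_left hs0, max_lt hs1 (by nlinarith), fun i a => ?_⟩
    have h6 : MemLp (fun ω => (ρ⁻¹) ^ i *
        TT^[i] (fun b ω => 1 * f b ω + (-μf) * e b) a ω) 2 (law q a) :=
      ((HK i a).1).const_mul _
    have h7 : MemLp (fun ω => (-μf) * (WW ρ e a ω - Wk ρ e i a ω)) 2 (law q a) :=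
      (hdiff i a).const_mul _
    have h8 : (fun ω => (ρ⁻¹) ^ i * TT^[i] f a ω - μf * WW ρ e a ω) =
        fun ω => (ρ⁻¹) ^ i * TT^[i] (fun b ω => 1 * f b ω + (-μf) * e b) a ω +
          (-μf) * (WW ρ e a ω - Wk ρ e i a ω) := funext fun ω => h5 i a ω
    constructor
    · rw [h8]; exact h6.add h7
    · simp_rw [h5]
      have h9 : ∫ ω, ((ρ⁻¹) ^ i * TT^[i] (fun b ω => 1 * f b ω + (-μf) * e b) a ω +
          (-μf) * (WW ρ e a ω - Wk ρ e i a ω)) ^ 2 ∂(law q a) ≤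
          ∫ ω, (2 * ((ρ⁻¹) ^ i * TT^[i] (fun b ω => 1 * f b ω + (-μf) * e b) a ω) ^ 2 +
            2 * μf ^ 2 * (WW ρ e a ω - Wk ρ e i a ω) ^ 2) ∂(law q a) := by
        refine integral_mono_of_nonneg (Eventually.of_forall fun ω => sq_nonneg _)
          ((h6.integrable_sq.const_mul 2).add ((hdiff i a).integrable_sq.const_mul _))
          (Eventually.of_forall fun ω => ?_)
        simp only []
        nlinarith [sq_nonneg ((ρ⁻¹) ^ i * TT^[i] (fun b ω => 1 * f b ω + (-μf) * e b) a ω -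
          (-μf) * (WW ρ e a ω - Wk ρ e i a ω))]
      refine h9.trans ?_
      rw [integral_add (h6.integrable_sq.const_mul 2) ((hdiff i a).integrable_sq.const_mul _),
        integral_const_mul, integral_const_mul, add_mul]
      have h10 : s ^ i ≤ (max s (t ^ 2)) ^ i := pow_le_pow_left₀ hs0 (le_max_left _ _) i
      have h11 : (t ^ 2) ^ i ≤ (max s (t ^ 2)) ^ i :=
        pow_le_pow_left₀ (sq_nonneg t) (le_max_right _ _) i
      have h12 : ∫ ω, ((ρ⁻¹) ^ i * TT^[i] (fun b ω => 1 * f b ω + (-μf) * e b) a ω) ^ 2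
          ∂(law q a) ≤ K * (max s (t ^ 2)) ^ i :=
        (HK i a).2.trans (mul_le_mul_of_nonneg_left h10 hK)
      have h13 : ∫ ω, (WW ρ e a ω - Wk ρ e i a ω) ^ 2 ∂(law q a) ≤
          (B / (1 - t)) ^ 2 * (max s (t ^ 2)) ^ i :=
        (hrate2 i a).trans (mul_le_mul_of_nonneg_left h11 (sq_nonneg _))
      have h14 : 2 * μf ^ 2 * ∫ ω, (WW ρ e a ω - Wk ρ e i a ω) ^ 2 ∂(law q a) ≤
          2 * μf ^ 2 * ((B / (1 - t)) ^ 2 * (max s (t ^ 2)) ^ i) :=
        mul_le_mul_of_nonneg_left h13 (by positivity)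
      linarith

end main

end Pool.Agent.H196
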